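import Pool.Agent.H33.SMS.AsmH
import Pool.Agent.H1.SMS.NEW
import Pool.Agent.H5.SMS.BTW
import Pool.Agent.H12.SMS.THD
import Pool.Agent.H32.SMS.REC
import Pool.Agent.H32.SMS.DET
import Pool.Agent.H45.SMS.GOO
import Pool.Agent.H45.SMS.TL
import Pool.Agent.H50.SMS.CNT
import Pool.Agent.H50.SMS.SUM
import Pool.Agent.H56.SMS.CRI
import Pool.Agent.H56.SMS.GZ
import Pool.Agent.H56.SMS.STR
import Pool.Agent.H70.SMS.CTW
import Pool.Agent.H70.SMS.MUL
import Pool.Agent.H89.SMS.DIF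

/-!
# Assembly of the first theorem
-/

set_option autoImplicit false

namespace Pool.Agent.H33.SMS

theorem rowsA : RowsA where
  new := Pool.Agent.H1.SMS.pf_NEW
  grc := Pool.Agent.H32.SMS.pf_GRC
  dif := Pool.Agent.H89.SMS.pf_DIF
  det := Pool.Agent.H32.SMS.pf_DET
  rec' := Pool.Agent.H32.SMS.pf_REC
  gz := Pool.Agent.H56.SMS.pf_GZ
  cri := Pool.Agent.H56.SMS.pf_CRI
  goo := Pool.Agent.H45.SMS.pf_GOO
  bad := Pool.Agent.H45.SMS.pf_BAD
  cnt := Pool.Agent.H50.SMS.pf_CNT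
  btw := Pool.Agent.H5.SMS.pf_BTW
  ctw := Pool.Agent.H70.SMS.pf_CTW
  str := Pool.Agent.H56.SMS.pf_STR
  sum := Pool.Agent.H50.SMS.pf_SUM
  thd := Pool.Agent.H12.SMS.pf_THD
  tl := Pool.Agent.H45.SMS.pf_TL
  mul := Pool.Agent.H70.SMS.pf_MUL
  alm := Pool.Agent.H50.SMS.pf_ALM

theorem det : T_DET := rowsA.det'

theorem crd : T_CRD := rowsA.crd

theorem main1 : T_MAIN := rowsA.main

end Pool.Agent.H33.SMS
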