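import Pool.Agent.H33.SMS.Asm1
import Pool.Agent.H45.SMS.TL
import Pool.Agent.H47.SMS.BKR
import Pool.Agent.H47.SMS.LGF
import Pool.Agent.H50.SMS.BIG
import Pool.Agent.H50.SMS.EXA
import Pool.Agent.H56.SMS.ALT
import Pool.Agent.H56.SMS.LOC
import Pool.Agent.H69.SMS.DIV
import Pool.Agent.H69.SMS.GAP
import Pool.Agent.H78.SMS.FIX
import Pool.Agent.H78.SMS.LIP
import Pool.Agent.H79.SMS.LAR
import Pool.Agent.H72.BF.Assemble

/-!
# Assembly of the second theorem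
-/

set_option autoImplicit false

namespace Pool.Agent.H33.SMS

theorem rowsB : RowsB where
  lar := Pool.Agent.H79.SMS.pf_LAR
  alt := Pool.Agent.H56.SMS.pf_ALT
  gap := Pool.Agent.H69.SMS.pf_GAP
  loc := Pool.Agent.H56.SMS.pf_LOC
  div := Pool.Agent.H69.SMS.pf_DIV
  lip := Pool.Agent.H78.SMS.pf_LIP
  bkr := Pool.Agent.H47.SMS.pf_BKR
  lgf := Pool.Agent.H47.SMS.pf_LGF
  exp := Pool.Agent.H45.SMS.pf_EXP
  exa := Pool.Agent.H50.SMS.pf_EXA
  big := Pool.Agent.H50.SMS.pf_BIG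
  fix := Pool.Agent.H78.SMS.pf_FIX

theorem lrg : T_LRG := rowsB.lrg Pool.Agent.H72.BF.bakerFeldman det

end Pool.Agent.H33.SMS
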