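import Pool.Agent.H33.SMS.Targets2

/-!
# Powerful numbers are of the form a² b³
-/

set_option autoImplicit false

namespace Pool.Agent.H33.SMS

theorem pf_PWR : T_PWR := by
  intro M hM
  obtain ⟨hM1, hM2⟩ := hM
  obtain ⟨a, b, hab, hsq⟩ := Nat.sq_mul_squarefree M
  have hb0 : 0 < b := by
    rcases Nat.eq_zero_or_pos b with h | h
    · subst h; omega
    · exact h
  have ha0 : 0 < a := by
    rcases Nat.eq_zero_or_pos a with h | h
    · subst h; omega
    · exact h
  have hdvd : a ∣ b := by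
    rw [← Nat.prod_primeFactors_of_squarefree hsq]
    refine Finset.prod_primes_dvd b ?_ ?_
    · intro p hp
      exact (Nat.prime_of_mem_primeFactors hp).prime
    · intro p hp
      have hpp := Nat.prime_of_mem_primeFactors hp
      have hpa := Nat.dvd_of_mem_primeFactors hp
      by_contra hpb
      have h1 : p ^ 2 ∣ M := hM2 p hpp (hab ▸ Dvd.dvd.mul_left hpa _)
      rw [← hab] at h1
      have hcop : Nat.Coprime (p ^ 2) (b ^ 2) := Nat.Coprime.pow _ _ ((Nat.Prime.coprime_iff_not_dvd hpp).2 hpb)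
      have h2 : p ^ 2 ∣ a := hcop.dvd_of_dvd_mul_left h1
      rw [pow_two] at h2
      have h3 := hsq p h2
      exact hpp.one_lt.ne' (Nat.isUnit_iff.1 h3)
  obtain ⟨c, rfl⟩ := hdvd
  refine ⟨c, a, ?_, ha0, ?_⟩
  · exact Nat.pos_of_ne_zero (by rintro rfl; omega)
  · rw [← hab]; ring

end Pool.Agent.H33.SMS
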