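import Pool.Agent.H33.SMS.Asm1
import Pool.Agent.H33.SMS.PWR
import Pool.Agent.H1.SMS.GRD
import Pool.Agent.H1.SMS.KB
import Pool.Agent.H50.SMS.EXC
import Pool.Agent.H50.SMS.PRT
import Pool.Agent.H50.SMS.PWS
import Pool.Agent.H67.SMS.PTS
import Pool.Agent.H94.SMS.CL

/-!
# Assembly: the number of exceptional pairs
-/

set_option autoImplicit false

namespace Pool.Agent.H33.SMS

theorem exc : T_EXC :=
  Pool.Agent.H50.SMS.pf_EXC
    (Pool.Agent.H1.SMS.pf_KB crd rowsA.goo)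
    (Pool.Agent.H50.SMS.pf_PRT (Pool.Agent.H67.SMS.pf_PTS rowsA.bad) Pool.Agent.H1.SMS.pf_GRD)
    Pool.Agent.H94.SMS.pf_CL
    (Pool.Agent.H50.SMS.pf_PWS pf_PWR)

end Pool.Agent.H33.SMS
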