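import Pool.Agent.H33.SMS.Targets
import Pool.Agent.H72.BF.Defs

/-!
# Assembly of the board `sms_modules` (hypothetical form)
-/

set_option autoImplicit false

namespace Pool.Agent.H33.SMS

/-- The rows of the first theorem. -/
structure RowsA : Prop where
  new : T_NEW
  grc : T_GRC
  dif : T_NEW → T_GRC → T_DIF
  det : T_DIF → T_DET
  rec' : T_REC
  gz : T_GZ
  cri : T_REC → T_GZ → T_CRI
  goo : T_GOO
  bad : T_BAD
  cnt : T_BAD → T_CNT
  btw : T_BTW
  ctw : T_BTW → T_CTW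
  str : T_STR
  sum : T_SUM
  thd : T_CRD → T_GOO → T_STR → T_CNT → T_CTW → T_SUM → T_THD
  tl : T_TL
  mul : T_CRD → T_GOO → T_MUL
  alm : T_MUL → T_CNT → T_TL → T_ALM

/-- The rows of the second theorem. -/
structure RowsB : Prop where
  lar : T_LAR
  alt : T_ALT
  gap : T_GAP
  loc : T_ALT → T_GAP → T_LOC
  div : T_DIV
  lip : T_LIP
  bkr : T_LIP → Pool.Agent.H72.BF.BakerFeldman → T_BKR
  lgf : T_LGF
  exp : T_EXP
  exa : T_EXA
  big : T_LOC → T_DIV → T_BKR → T_LGF → T_EXP → T_EXA → T_BIG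
  fix : T_BIG → T_LAR → T_FIX

theorem RowsA.det' (h : RowsA) : T_DET := h.det (h.dif h.new h.grc)

theorem RowsA.crd (h : RowsA) : T_CRD := fun p n s hc hs =>
  h.det' n s (h.cri h.rec' h.gz p n s hc hs)

theorem RowsA.main (h : RowsA) : T_MAIN :=
  ⟨h.crd, h.thd h.crd h.goo h.str (h.cnt h.bad) (h.ctw h.btw) h.sum,
    h.alm (h.mul h.crd h.goo) (h.cnt h.bad) h.tl⟩

theorem RowsB.lrg (h : RowsB) (hB : Pool.Agent.H72.BF.BakerFeldman) (hD : T_DET) : T_LRG := by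
  intro s hs
  obtain ⟨N, hN⟩ := h.fix (h.big (h.loc h.alt h.gap) h.div (h.bkr h.lip hB) h.lgf h.exp h.exa)
    h.lar s hs
  exact ⟨N, fun n hn => hD n s (hN n hn)⟩

end Pool.Agent.H33.SMS
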