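import Pool.Agent.H14.MT.Main

/-!
# The `s`-sums of a multiset of integers (MP_ec36a5_nt): definitions and targets

`Det n s`: two `n`-multisets of integers with the same multiset of `s`-sums are equal.
-/

set_option autoImplicit false

noncomputable section

namespace Pool.Agent.H33.SMS

open Pool.Agent.H14.MT (ps ex EE DD sums)

/-- The multiset of `s`-sums of a multiset of integers. -/
def sumsZ (s : ℕ) (A : Multiset ℤ) : Multiset ℤ := (Multiset.powersetCard s A).map Multiset.sum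

/-- Two `n`-multisets of integers with the same multiset of `s`-sums are equal. -/
def Det (n s : ℕ) : Prop :=
  ∀ A B : Multiset ℤ, Multiset.card A = n → Multiset.card B = n → sumsZ s A = sumsZ s B → A = B

/-- The factor of the power sum of order `k + 1` in the moment of order `k + 1` of the `s`-sums. -/
def G (n s k : ℕ) : ℤ :=
  ∑ i ∈ Finset.range s, (-1) ^ i * ((i : ℤ) + 1) ^ k * (n.choose (s - 1 - i) : ℤ)

/-- The criterion. -/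
def Crit (p n s : ℕ) : Prop :=
  p.Prime ∧ p ∣ n ∧ ¬ p ∣ s ∧ ∀ i, 1 ≤ i → i < s →
    padicValNat p (n - i) < padicValNat p n + padicValNat p ((s - 1).descFactorial i)

/-- `p` is bad for `n`. -/
def Bad (p n : ℕ) : Prop :=
  ∃ i, 1 ≤ i ∧ i < n ∧ padicValNat p n + padicValNat p i.factorial ≤ padicValNat p (n - i)

/-! ### A. Moments -/

/-- Newton's identities for a multiset. -/
def T_NEW : Prop := ∀ (R : Type) [CommRing R] (M : Multiset R) (s : ℕ),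
  (s : R) * M.esymm s = ∑ i ∈ Finset.range s, (-1) ^ i * M.esymm (s - 1 - i) * ps M (i + 1)

/-- The recursion in `s`. -/
def T_GRC : Prop := ∀ n s k : ℕ, (s : ℤ) * G n s k = ∑ i ∈ Finset.range s,
  (-1) ^ i * ((n : ℤ) * G n (s - 1 - i) k + ((i : ℤ) + 1) ^ (k + 1) * (n.choose (s - 1 - i) : ℤ))

/-- First difference of the elementary symmetric functions. -/
def T_DIF : Prop := ∀ (n s k : ℕ) (A B : Multiset ℚ) (δ : ℚ), Multiset.card A = n →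
  Multiset.card B = n → DD (k + 1) (EE A) (EE B) δ →
  DD (k + 1) ((A.map ex).esymm s) ((B.map ex).esymm s) ((G n s k : ℚ) * δ)

/-- Nonvanishing factors determine the multiset. -/
def T_DET : Prop := ∀ n s : ℕ, (∀ k, G n s k ≠ 0) → Det n s

/-! ### B. The criterion -/

def T_REC : Prop := ∀ n s k : ℕ,
  G (n + 1) (s + 1) (k + 1) = ((s : ℤ) + 1) * G (n + 1) (s + 1) k - ((n : ℤ) + 1) * G n s k

def T_GZ : Prop := ∀ n s : ℕ, G (n + 1) (s + 1) 0 = (n.choose s : ℤ)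

def T_CRI : Prop := ∀ p n s : ℕ, Crit p n s → s < n → ∀ k, G n s k ≠ 0

/-- The criterion determines the multiset. -/
def T_CRD : Prop := ∀ p n s : ℕ, Crit p n s → s < n → Det n s

/-! ### C. Density -/

def T_GOO : Prop := ∀ p n s : ℕ, p.Prime → p ∣ n → ¬ Bad p n → ¬ p ∣ s → s < n → Crit p n s

def T_BAD : Prop := ∀ p n : ℕ, p.Prime → p ∣ n → Bad p n →
  ∃ j, 1 ≤ j ∧ p * j < n ∧ p ^ (j + 1) ∣ n - p * j

open Classical in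
def T_CNT : Prop := ∀ p N : ℕ, p.Prime →
  ((((Finset.Icc 1 N).filter (fun n => p ∣ n ∧ Bad p n)).card : ℕ) : ℝ) ≤
    N * (1 / ((p : ℝ) * (p - 1)))

def T_BTW : Prop := ∀ n : ℕ, padicValNat 2 n = 2 → Bad 2 n →
  (4 < n ∧ 32 ∣ n - 4) ∨ ∃ j, 6 ≤ j ∧ 2 * j < n ∧ 2 ^ (j + 2) ∣ n - 2 * j

open Classical in
def T_CTW : Prop := ∀ N : ℕ,
  ((((Finset.Icc 1 N).filter (fun n => padicValNat 2 n = 2 ∧ Bad 2 n)).card : ℕ) : ℝ) ≤
    N * (5 / 128)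

/-- If no prime is bad, some good prime does not divide `s`. -/
def T_STR : Prop := ∀ n s : ℕ, 1 ≤ s → s < n → 2 * s ≠ n → ¬ 8 ∣ n →
  (padicValNat 2 n = 2 → ¬ Bad 2 n) →
  (∀ p, p.Prime → p ≠ 2 → p ∣ n → ¬ p ^ 2 ∣ n ∧ ¬ Bad p n) →
  ∃ p, p.Prime ∧ p ∣ n ∧ ¬ p ∣ s ∧ ¬ Bad p n

open Classical in
def T_SUM : Prop := ∀ N : ℕ, ∑ p ∈ (Finset.Icc 3 N).filter Nat.Prime,
  (1 / (p : ℝ) ^ 2 + 1 / ((p : ℝ) * (p - 1))) ≤ 4955 / 10000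

open Classical in
/-- At least a third of all `n` is good. -/
def T_THD : Prop := ∀ N : ℕ, (N : ℝ) / 3 ≤
  (((Finset.Icc 1 N).filter (fun n => ∀ s, 1 ≤ s → s < n → 2 * s ≠ n → Det n s)).card : ℝ)

open Classical in
def T_TL : Prop := ∀ P N : ℕ, 1 ≤ P → ∑ p ∈ (Finset.Ioc P N).filter Nat.Prime,
  (1 / (p : ℝ) ^ 2 + 1 / ((p : ℝ) * (p - 1))) ≤ 2 / (P : ℝ)

open Classical in
/-- Few exceptional `s`. -/
def T_MUL : Prop := ∀ P A n : ℕ, 1 ≤ n →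
  (∀ p, p.Prime → P < p → p ∣ n → ¬ p ^ 2 ∣ n ∧ ¬ Bad p n) →
  (∀ p, p.Prime → p ≤ P → ¬ p ^ A ∣ n) →
  ((Finset.Ico 1 n).filter (fun s => ¬ Det n s)).card ≤ P ^ (A * P)

open Classical in
/-- Almost all `n` have few exceptional `s`. -/
def T_ALM : Prop := ∀ ε : ℝ, 0 < ε → ∃ R : ℕ, ∀ N : ℕ,
  ((((Finset.Icc 1 N).filter (fun n =>
    R < ((Finset.Ico 1 n).filter (fun s => ¬ Det n s)).card)).card : ℕ) : ℝ) ≤ ε * N

/-! ### D. Fixed `s`, large `n` -/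

def T_LAR : Prop := ∀ s : ℕ, 2 ≤ s → ∀ n k : ℕ, s ^ (k + 3) ≤ n → 0 < G n s k

/-- Alternating sums of strongly log-concave sequences. -/
def T_ALT : Prop := ∀ (s : ℕ) (a : ℕ → ℝ) (q : ℝ), 2 ≤ s → 0 < q → q ≤ 1 / 16 →
  (∀ i, 1 ≤ i → i ≤ s → 0 < a i) →
  (∀ i, 1 ≤ i → i + 2 ≤ s → a i * a (i + 2) ≤ q * a (i + 1) ^ 2) →
  ∑ i ∈ Finset.range s, (-1) ^ i * a (i + 1) = 0 →
  ∃ i, 1 ≤ i ∧ i + 1 ≤ s ∧ |a (i + 1) - a i| ≤ 10 * q * a i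

def T_GAP : Prop := ∀ n s k i : ℕ, 1 ≤ i → i + 2 ≤ s →
  ((i : ℝ) ^ k * (n.choose (s - i) : ℝ)) * (((i + 2 : ℕ) : ℝ) ^ k * (n.choose (s - (i + 2)) : ℝ)) ≤
    (1 - 1 / (s : ℝ) ^ 2) ^ k * (((i + 1 : ℕ) : ℝ) ^ k * (n.choose (s - (i + 1)) : ℝ)) ^ 2

/-- Localisation of the zeros. -/
def T_LOC : Prop := ∀ s : ℕ, 2 ≤ s → ∃ (K : ℕ) (θ C : ℝ), 0 < θ ∧ θ < 1 ∧ 0 < C ∧
  ∀ n k : ℕ, K ≤ k → s ≤ n → G n s k = 0 → ∃ i : ℕ, 1 ≤ i ∧ i < s ∧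
    |(n : ℝ) * (i : ℝ) ^ k - ((s : ℝ) - i) * ((i : ℝ) + 1) ^ k| ≤ C * θ ^ k * (n * (i : ℝ) ^ k)

def T_DIV : Prop := ∀ n s k : ℕ, 1 ≤ s → G n s k = 0 → n ∣ (s - 1).factorial * s ^ k

/-- The primes up to `s`. -/
def Pr (s : ℕ) : Finset ℕ := (Finset.range (s + 1)).filter Nat.Prime

/-- The logarithms of the primes are linearly independent. -/
def T_LIP : Prop := ∀ s : ℕ, LinearIndependent ℚ (fun p : Pr s => ((Real.log (p : ℕ) : ℝ) : ℂ))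

/-- Baker's theorem for the logarithms of the primes up to `s`. -/
def T_BKR : Prop := ∀ s : ℕ, ∃ C : ℝ, 0 < C ∧ ∀ (H : ℝ) (e : ℕ → ℤ), 2 ≤ H →
  (∀ p, |(e p : ℝ)| ≤ H) → (∃ p ∈ Pr s, e p ≠ 0) →
  1 ≤ H ^ C * |∑ p ∈ Pr s, (e p : ℝ) * Real.log p|

/-- The logarithm of a quotient of `s`-smooth numbers. -/
def T_LGF : Prop := ∀ s a b : ℕ, 0 < a → 0 < b → (∀ p, p.Prime → p ∣ a * b → p ≤ s) →
  Real.log a - Real.log b =
    ∑ p ∈ Pr s, (((padicValNat p a : ℤ) - (padicValNat p b : ℤ) : ℤ) : ℝ) * Real.log p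

/-- Exponentials against powers. -/
def T_EXP : Prop := ∀ (c C D θ : ℝ), 0 < c → 0 < C → 0 < D → 0 < θ → θ < 1 →
  ∃ K : ℕ, ∀ k : ℕ, K ≤ k → 2 ≤ c * k ∧ C * θ ^ k ≤ 1 / 2 ∧ (c * k) ^ D * (2 * C * θ ^ k) < 1

def T_EXA : Prop := ∀ s : ℕ, 3 ≤ s → ∃ K : ℕ, ∀ k, K ≤ k → G ((s - 1) * 2 ^ k) s k ≠ 0

/-- No zeros for large `k`. -/
def T_BIG : Prop := ∀ s : ℕ, 3 ≤ s → ∃ K : ℕ, ∀ n k : ℕ, K ≤ k → s ≤ n → G n s k ≠ 0

def T_FIX : Prop := ∀ s : ℕ, 3 ≤ s → ∃ N : ℕ, ∀ n, N ≤ n → ∀ k, G n s k ≠ 0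

/-! ### E. The theorems -/

/-- First theorem. -/
def T_MAIN : Prop := T_CRD ∧ T_THD ∧ T_ALM

/-- Second theorem. -/
def T_LRG : Prop := ∀ s : ℕ, 3 ≤ s → ∃ N : ℕ, ∀ n, N ≤ n → Det n s

end Pool.Agent.H33.SMS
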