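import Pool.Agent.H33.SMS.Targets

/-!
# Targets for the bound of the number of exceptional pairs
-/

set_option autoImplicit false

noncomputable section

namespace Pool.Agent.H33.SMS

open Classical in
/-- `n` divided by the product of its primes which are not bad. -/
def KK (n : ℕ) : ℕ := n / ∏ p ∈ n.primeFactors.filter (fun p => ¬ Bad p n), p

open Classical in
/-- The number of exceptional `s` is at most `KK n`. -/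
def T_KB : Prop := ∀ n : ℕ, 1 ≤ n →
  ((Finset.Ico 1 n).filter (fun s => ¬ Det n s)).card ≤ KK n

/-- The parts of `n`. -/
def T_PTS : Prop := ∀ n : ℕ, 1 ≤ n → ∃ (S : Finset ℕ) (e r : ℕ → ℕ),
  (∀ p ∈ S, p.Prime ∧ 2 ≤ e p ∧ (r p = 0 ∨ r p = p * (e p - 1)) ∧ r p < n ∧
    p ^ e p ∣ n - r p ∧ p ^ e p ≤ n) ∧
  KK n ≤ ∏ p ∈ S, p ^ e p

/-- Greedy choice of a subset. -/
def T_GRD : Prop := ∀ (S : Finset ℕ) (f : ℕ → ℕ) (X N : ℝ), 1 ≤ X → X * X ≤ N →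
  (∀ p ∈ S, 1 ≤ f p ∧ (f p : ℝ) ≤ N) → X ≤ ∏ p ∈ S, (f p : ℝ) →
  ∃ S' ⊆ S, X ≤ ∏ p ∈ S', (f p : ℝ) ∧ ∏ p ∈ S', (f p : ℝ) ≤ N

/-- Powerful numbers. -/
def Pw (M : ℕ) : Prop := 1 ≤ M ∧ ∀ p : ℕ, p.Prime → p ∣ M → p ^ 2 ∣ M

/-- The residue class belonging to `M₁` and `M₂`. -/
def InA (M₁ M₂ n : ℕ) : Prop := M₂ ∣ n ∧ ∀ p : ℕ, p.Prime → p ∣ M₁ →
  p * (padicValNat p M₁ - 1) < n ∧ p ^ padicValNat p M₁ ∣ n - p * (padicValNat p M₁ - 1)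

open Classical in
def T_CL : Prop := ∀ M₁ M₂ N : ℕ, 1 ≤ M₁ → 1 ≤ M₂ → Nat.Coprime M₁ M₂ →
  ((((Finset.Icc 1 N).filter (fun n => InA M₁ M₂ n)).card : ℕ) : ℝ) ≤
    (N : ℝ) / ((M₁ : ℝ) * M₂) + 1

def T_PRT : Prop := ∀ (n N : ℕ) (X : ℝ), 1 ≤ n → n ≤ N → 1 ≤ X → X * X ≤ N → X ≤ (KK n : ℝ) →
  ∃ M₁ M₂ : ℕ, Pw M₁ ∧ Pw M₂ ∧ Nat.Coprime M₁ M₂ ∧ X ≤ (M₁ : ℝ) * M₂ ∧ M₁ * M₂ ≤ N ∧
    InA M₁ M₂ n

/-- Powerful numbers are of the form `a² b³`. -/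
def T_PWR : Prop := ∀ M : ℕ, Pw M → ∃ a b : ℕ, 1 ≤ a ∧ 1 ≤ b ∧ M = a ^ 2 * b ^ 3

open Classical in
def T_PWS : Prop := ∃ C : ℝ, 0 < C ∧ ∀ N : ℕ, 1 ≤ N →
  ∑ M ∈ (Finset.Icc 1 N).filter Pw, 1 / √(M : ℝ) ≤ C * (1 + Real.log N)

open Classical in
/-- The number of exceptional pairs. -/
def T_EXC : Prop := ∃ C : ℝ, 0 < C ∧ ∀ N : ℕ, 1 ≤ N →
  ((∑ n ∈ Finset.Icc 1 N, ((Finset.Ico 1 n).filter (fun s => ¬ Det n s)).card : ℕ) : ℝ) ≤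
    C * (N : ℝ) ^ (7 / 4 : ℝ) * (1 + Real.log N) ^ 2

end Pool.Agent.H33.SMS
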